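import Pool.Agent.H53.HjD

/-! A finite-dimensional normed space with `γ < γ*`. -/

namespace Pool.Agent.Results.MP_78373f_an.Full

open H53.Hj

/-- `P` is `r`-separated -/
def Sep {X : Type} [NormedAddCommGroup X] (r : ℝ) (P : Set X) : Prop :=
  ∀ x ∈ P, ∀ y ∈ P, x ≠ y → r ≤ ‖x - y‖

/-- `P` is `r`-dense -/
def Den {X : Type} [NormedAddCommGroup X] (r : ℝ) (P : Set X) : Prop :=
  ∀ x : X, ∃ p ∈ P, ‖x - p‖ ≤ r

/-- the simultaneous packing and covering constant -/
noncomputable def gamma (X : Type) [NormedAddCommGroup X] : ℝ :=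
  sInf {r | 0 < r ∧ ∃ P : Set X, Den r P ∧ Sep 2 P}

/-- the lattice simultaneous packing and covering constant -/
noncomputable def gammaStar (X : Type) [NormedAddCommGroup X] : ℝ :=
  sInf {r | 0 < r ∧ ∃ P : AddSubgroup X, Den r (P : Set X) ∧ Sep 2 (P : Set X)}

theorem result : ∃ (X : Type) (_ : NormedAddCommGroup X) (_ : NormedSpace ℝ X),
    Module.finrank ℝ X = 12 ∧ gamma X < gammaStar X := by
  obtain ⟨ε, e0, e1, H⟩ := lat (ι := Fin 3 × Fin 4)
  obtain ⟨T, sep, cov⟩ := keller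
  let L : (Fin 3 × Fin 4 → ℝ) →ₗ[ℝ] ((Fin 3 × Fin 4) × (Fin 3 × Fin 4) × Bool → ℝ) :=
    { toFun := fun x q => if q.1 = q.2.1 then 0 else x q.1 + (if q.2.2 then ε else -ε) * x q.2.1
      map_add' := fun x y => funext fun q => by simp only [Pi.add_apply]; split_ifs <;> ring
      map_smul' := fun c x => funext fun q => by
        simp only [Pi.smul_apply, smul_eq_mul, RingHom.id_apply]; split_ifs <;> ring }
  have lo : ∀ x i j, i ≠ j → |x i| + ε * |x j| ≤ ‖L x‖ := fun x i j h => by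
    have h1 := abs_le.1 (norm_le_pi_norm (L x) (i, j, true))
    have h2 := abs_le.1 (norm_le_pi_norm (L x) (i, j, false))
    simp only [L, LinearMap.coe_mk, AddHom.coe_mk, h, if_false, if_true, Bool.false_eq_true] at h1 h2 ⊢
    rcases abs_cases (x i) with h | h <;> rcases abs_cases (x j) with h' | h' <;>
      rw [h.1, h'.1] <;> linarith
  have hi : ∀ x r, 0 ≤ r → (∀ i j, i ≠ j → |x i| + ε * |x j| ≤ r) → ‖L x‖ ≤ r := fun x r hr h =>
    (pi_norm_le_iff_of_nonneg hr).2 fun ⟨i, j, b⟩ => by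
      simp only [L, LinearMap.coe_mk, AddHom.coe_mk, Real.norm_eq_abs]
      by_cases e : i = j
      · simpa [e]
      · rw [if_neg e]
        refine (abs_add_le _ _).trans (le_trans ?_ (h i j e))
        cases b <;> simp [abs_mul, abs_of_pos e0]
  have inj : Function.Injective L := (injective_iff_map_eq_zero L).2 fun x hx => funext fun i => by
    obtain ⟨j, hj⟩ := exists_ne i
    have := lo x i j hj.symm
    rw [hx, norm_zero] at this
    exact abs_nonpos_iff.1 (by linarith [mul_nonneg e0.le (abs_nonneg (x j))])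
  let e := LinearEquiv.ofInjective L inj
  have ne : ∀ x, ‖e x‖ = ‖L x‖ := fun x => rfl
  refine ⟨LinearMap.range L, inferInstance, inferInstance, by rw [← e.finrank_eq]; simp, ?_⟩
  have near : ∀ (c : ℝ) (x : Fin 3 × Fin 4 → ℝ) (u : Fin 3 × Fin 4 → ℤ), 0 < c →
      (∀ i, |x i / c - u i| ≤ 1) → ‖e x - e fun i => c * u i‖ ≤ c * (1 + ε) := fun c x u hc h => by
    have : ∀ i, |x i - c * u i| ≤ c := fun i => by
      rw [show x i - c * u i = c * (x i / c - u i) by field_simp, abs_mul, abs_of_pos hc]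
      exact mul_le_of_le_one_right hc.le (h i)
    rw [← map_sub, ne]
    exact hi _ _ (by positivity) fun i j _ => by
      simp only [Pi.sub_apply]; nlinarith [this i, this j]
  refine lt_of_le_of_lt (b := 2 / (2 + ε) * (1 + ε)) (csInf_le ⟨0, fun r hr => hr.1.le⟩
    ⟨by positivity, (fun u => e fun i => 2 / (2 + ε) * (u i : ℝ)) '' T, fun y => ?_, ?_⟩)
    (lt_of_lt_of_le (b := 1 + 3 / 5 * ε) ?_ (le_csInf ⟨2 * (1 + ε), by positivity,
      AddSubgroup.map (e : (Fin 3 × Fin 4 → ℝ) →+ LinearMap.range L)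
        (AddSubgroup.pi Set.univ fun _ => AddSubgroup.zmultiples 2), fun y => ?_, ?_⟩ ?_))
  · obtain ⟨x, rfl⟩ := e.surjective y
    obtain ⟨u, hu, h⟩ := cov fun i => ⌊x i / (2 / (2 + ε))⌋
    refine ⟨_, ⟨u, hu, rfl⟩, near _ x u (by positivity) fun i => ?_⟩
    have h1 := Int.floor_le (x i / (2 / (2 + ε)))
    have h2 := Int.lt_floor_add_one (x i / (2 / (2 + ε)))
    rcases h i with h | h <;> rw [h] <;> push_cast <;> exact abs_le.2 ⟨by linarith, by linarith⟩
  · rintro _ ⟨u, hu, rfl⟩ _ ⟨v, hv, rfl⟩ h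
    obtain ⟨i, j, h1, h2⟩ := sep u hu v hv fun e => h (by rw [e])
    rw [← map_sub, ne]
    refine le_trans ?_ (lo _ i j h1)
    have hc : 0 < 2 / (2 + ε) := by positivity
    simp only [Pi.sub_apply, ← mul_sub, abs_mul, abs_of_pos hc]
    rw [mul_left_comm, ← mul_add, div_mul_eq_mul_div, le_div_iff₀ (by positivity)]
    rcases h2 with h2 | ⟨h2, h3⟩
    · have : (4 : ℝ) ≤ |(u i : ℝ) - v i| := by exact_mod_cast h2
      nlinarith [abs_nonneg ((u j : ℝ) - v j)]
    · have : (2 : ℝ) ≤ |(u i : ℝ) - v i| := by exact_mod_cast h2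
      have : (1 : ℝ) ≤ |(u j : ℝ) - v j| := by exact_mod_cast h3
      nlinarith
  · rw [div_mul_eq_mul_div, div_lt_iff₀ (by positivity)]; nlinarith
  · obtain ⟨x, rfl⟩ := e.surjective y
    refine ⟨_, ⟨fun i => 2 * (round (x i / 2) : ℝ), fun i _ => ⟨round (x i / 2), by
      simp [mul_comm]⟩, rfl⟩, near 2 x _ two_pos fun i => (abs_sub_round _).trans (by norm_num)⟩
  · rintro _ ⟨u, hu, rfl⟩ _ ⟨v, hv, rfl⟩ h
    obtain ⟨i, hi⟩ := Function.ne_iff.1 (show u ≠ v from fun e => h (by rw [e]))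
    obtain ⟨j, hj⟩ := exists_ne i
    obtain ⟨m, hm⟩ := (AddSubgroup.zmultiples (2 : ℝ)).sub_mem (hu i trivial) (hv i trivial)
    replace hm : m • (2 : ℝ) = u i - v i := hm
    refine le_trans ?_ ((lo (u - v) i j hj.symm).trans_eq (by rw [← ne, map_sub]; rfl))
    have h1 : (1 : ℝ) ≤ |(m : ℝ)| := by
      exact_mod_cast Int.one_le_abs fun e => hi (sub_eq_zero.1 (by rw [← hm, e, zero_smul]))
    rw [Pi.sub_apply, ← hm, zsmul_eq_mul, abs_mul, abs_two]
    nlinarith [abs_nonneg ((u - v) j)]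
  · rintro r ⟨-, P, h1, h2⟩
    by_contra! hr
    refine H (P.comap (e : (Fin 3 × Fin 4 → ℝ) →+ LinearMap.range L)) (fun v hv h0 => ?_) fun x => ?_
    · have h3 := h2 _ hv 0 P.zero_mem (by simpa using h0)
      obtain ⟨q, hq', hq⟩ := Finset.exists_max_image (Finset.univ.filter fun
        q : (Fin 3 × Fin 4) × (Fin 3 × Fin 4) => q.1 ≠ q.2) (fun q => |v q.1| + ε * |v q.2|)
        ⟨((0, 0), (0, 1)), by simp⟩
      rw [sub_zero] at h3
      exact ⟨q.1, q.2, (Finset.mem_filter.1 hq').2, h3.trans (hi v _ (by positivity)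
        fun i j h => hq (i, j) (by simpa using h))⟩
    · obtain ⟨p, hp, h3⟩ := h1 (e x)
      obtain ⟨v, rfl⟩ := e.surjective p
      rw [← map_sub, ne] at h3
      exact ⟨v, hp, fun i j h => (lo _ i j h).trans (h3.trans hr.le)⟩

end Pool.Agent.Results.MP_78373f_an.Full
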